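import Mathlib

namespace Pool.Agent.Results.MP_290120_co.LinearDeficiency

open Finset

/-- Two cells share an edge. -/
def Adj (a b : ℕ × ℕ) : Prop :=
  (a.1 = b.1 ∧ (a.2 + 1 = b.2 ∨ b.2 + 1 = a.2)) ∨
  (a.2 = b.2 ∧ (a.1 + 1 = b.1 ∨ b.1 + 1 = a.1))

/-- The `m × n` board. -/
def board (m n : ℕ) : Finset (ℕ × ℕ) := range m ×ˢ range n

/-- The cells of the board which are not covered by the dominoes of `D`. -/
def holes (m n : ℕ) (D : Finset (Finset (ℕ × ℕ))) : Finset (ℕ × ℕ) :=
  board m n \ D.biUnion id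

/-- `D` is a gunport configuration on the `m × n` board: its members are dominoes (two cells of
the board which share an edge), they do not overlap, and no two uncovered cells share an edge. -/
structure IsGunport (m n : ℕ) (D : Finset (Finset (ℕ × ℕ))) : Prop where
  domino : ∀ d ∈ D, d ⊆ board m n ∧ ∃ a b, Adj a b ∧ d = {a, b}
  disj : ∀ d ∈ D, ∀ e ∈ D, d ≠ e → Disjoint d e
  isolated : ∀ a ∈ holes m n D, ∀ b ∈ holes m n D, ¬ Adj a b

/-- The maximum number of holes. -/
noncomputable def G (m n : ℕ) : ℕ :=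
  sSup {k | ∃ D, IsGunport m n D ∧ (holes m n D).card = k}

/-- The conjectured value. -/
def pearce (m n : ℕ) : ℕ :=
  if m % 3 = n % 3 then (m * n - 4) / 3 else (m * n - 2) / 3

/-! ### The numerical part -/

section numeric

variable {m n : ℕ} {g t s : ℕ → ℕ}

structure Col (m n : ℕ) (g t s : ℕ → ℕ) : Prop where
  t0 : t 0 = 0
  tn : t n = 0
  cell : ∀ j < n, g j + t j + t (j + 1) + 2 * s j = m
  L : ∀ j, j + 1 < n → g j ≤ s (j + 1) + t (j + 2)
  R : ∀ j, j + 1 < n → g (j + 1) ≤ s j + t j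
  first : g 0 ≤ s 0 + t 1 + 1
  last : g (n - 1) ≤ s (n - 1) + t (n - 1) + 1

theorem sum_shift (t : ℕ → ℕ) (t0 : t 0 = 0) (j : ℕ) :
    ∑ k ∈ range j, t (k + 1) = ∑ k ∈ range j, t k + t j := by
  induction j with
  | zero => simp [t0]
  | succ j ih => rw [sum_range_succ, sum_range_succ, ih]

theorem Col.total (h : Col m n g t s) :
    ∑ j ∈ range n, g j + 2 * ∑ j ∈ range n, t j + 2 * ∑ j ∈ range n, s j = n * m := by
  have h1 : ∑ j ∈ range n, (g j + t j + t (j + 1) + 2 * s j) = ∑ j ∈ range n, m :=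
    sum_congr rfl (fun j hj => h.cell j (mem_range.1 hj))
  rw [sum_add_distrib, sum_add_distrib, sum_add_distrib, sum_shift t h.t0, h.tn, ← mul_sum,
    sum_const, card_range, smul_eq_mul] at h1
  omega

theorem Col.pre (h : Col m n g t s) : ∀ j, j < n →
    ∑ k ∈ range (j + 1), g k ≤ g 0 + ∑ k ∈ range j, s k + ∑ k ∈ range j, t k := by
  intro j
  induction j with
  | zero => intro _; simp
  | succ j ih =>
    intro hj
    have := ih (by omega)
    have h2 := h.R j hj
    rw [sum_range_succ _ (j + 1), sum_range_succ s, sum_range_succ t]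
    omega

theorem Col.suf (h : Col m n g t s) (j : ℕ) : ∀ k, j ≤ k → k < n →
    ∑ i ∈ range k, g i + (∑ i ∈ range (j + 1), s i + ∑ i ∈ range (j + 1), t i + t (j + 1)) ≤
      ∑ i ∈ range j, g i +
        (∑ i ∈ range (k + 1), s i + ∑ i ∈ range (k + 1), t i + t (k + 1)) := by
  intro k hk
  induction k, hk using Nat.le_induction with
  | base => intro _; exact le_rfl
  | succ k hk ih =>
    intro hk2
    have h1 := ih (by omega)
    have h2 : g k ≤ s (k + 1) + t (k + 1 + 1) := h.L k hk2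
    rw [sum_range_succ g, sum_range_succ s (k + 1), sum_range_succ t (k + 1)]
    omega

/-- The crossing inequality. -/
theorem Col.cross (h : Col m n g t s) (j : ℕ) (hj : j + 1 < n) :
    t (j + 1) + g j + g (j + 1) + ∑ k ∈ range n, g k ≤
      ∑ k ∈ range n, s k + ∑ k ∈ range n, t k + g 0 + g (n - 1) := by
  obtain ⟨n', rfl⟩ : ∃ n', n = n' + 1 := ⟨n - 1, by omega⟩
  have h1 := h.pre (j + 1) hj
  have h2 := h.suf j n' (by omega) (by omega)
  have h3 := h.tn
  simp only [Nat.add_sub_cancel]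
  rw [sum_range_succ _ (j + 1), sum_range_succ _ j] at h1
  rw [sum_range_succ g]
  omega

theorem sum_pairs (g : ℕ → ℕ) (n : ℕ) :
    ∑ j ∈ range n, (g j + g (j + 1)) + g 0 + g n = 2 * ∑ j ∈ range (n + 1), g j := by
  induction n with
  | zero => simp; omega
  | succ n ih => rw [sum_range_succ, sum_range_succ _ (n + 1)]; omega

theorem Col.DH (h : Col m n g t s) (hn : 1 ≤ n) :
    ∑ k ∈ range n, t k + 2 * ∑ k ∈ range n, g k + (n - 1) * ∑ k ∈ range n, g k ≤
      (n - 1) * (∑ k ∈ range n, s k + ∑ k ∈ range n, t k + g 0 + g (n - 1)) +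
        g 0 + g (n - 1) := by
  obtain ⟨n, rfl⟩ : ∃ n', n = n' + 1 := ⟨n - 1, by omega⟩
  have h1 := sum_le_sum (s := range n) (fun j hj => h.cross j (by have := mem_range.1 hj; omega))
  rw [sum_add_distrib, sum_const, sum_const, card_range, smul_eq_mul, smul_eq_mul] at h1
  have h2 := sum_pairs g n
  have h3 : ∑ k ∈ range (n + 1), t k = ∑ k ∈ range n, t (k + 1) := by
    rw [sum_range_succ', h.t0, add_zero]
  have h4 : ∑ x ∈ range n, (t (x + 1) + g x + g (x + 1)) =
      ∑ x ∈ range n, t (x + 1) + ∑ x ∈ range n, (g x + g (x + 1)) := by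
    rw [← sum_add_distrib]; exact sum_congr rfl (fun x _ => by ring)
  rw [h4] at h1
  simp only [Nat.add_sub_cancel] at h1 ⊢
  rw [← h3] at h1
  omega

theorem Col.triple (h : Col m n g t s) (j : ℕ) (hj : j + 2 < n) :
    g j + g (j + 1) + g (j + 2) ≤ m := by
  have h1 := h.L j (by omega)
  have h2 := h.R (j + 1) hj
  have h3 := h.cell (j + 1) (by omega)
  simp only [add_assoc, Nat.reduceAdd] at h1 h2 h3 ⊢
  omega

theorem Col.left (h : Col m n g t s) (hn : 2 ≤ n) : 2 * g 0 + g 1 ≤ m + 1 := by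
  have h1 := h.first
  have h2 := h.R 0 (by omega)
  have h3 := h.cell 0 (by omega)
  have h4 := h.t0
  simp only [zero_add] at h2 h3
  omega

theorem Col.right (h : Col m n g t s) (hn : 2 ≤ n) : 2 * g (n - 1) + g (n - 2) ≤ m + 1 := by
  obtain ⟨n, rfl⟩ : ∃ n', n = n' + 2 := ⟨n - 2, by omega⟩
  have h1 := h.last
  have h2 := h.L n (by omega)
  have h3 := h.cell (n + 1) (by omega)
  have h4 := h.tn
  simp only [Nat.add_sub_cancel, show n + 2 - 1 = n + 1 from rfl] at h1 h2 h3 h4 ⊢
  simp only [add_assoc, Nat.reduceAdd] at h1 h2 h3 ⊢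
  omega

theorem sum_triples (g : ℕ → ℕ) (m a q : ℕ)
    (h : ∀ r < q, g (a + 3 * r) + g (a + 3 * r + 1) + g (a + 3 * r + 2) ≤ m) :
    ∑ j ∈ range (a + 3 * q), g j ≤ ∑ j ∈ range a, g j + m * q := by
  induction q with
  | zero => simp
  | succ q ih =>
    have h1 := ih (fun r hr => h r (by omega))
    have h2 := h q (by omega)
    rw [show a + 3 * (q + 1) = a + 3 * q + 1 + 1 + 1 by ring, sum_range_succ, sum_range_succ,
      sum_range_succ, mul_add]
    simp only [add_assoc] at h1 h2 ⊢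
    omega

theorem Col.bound1 (h : Col m n g t s) (hn : 2 ≤ n) (h3 : n % 3 = 1) :
    3 * (g 0 + g (n - 1)) + 3 * ∑ j ∈ range n, g j ≤ m * (n + 2) + 6 := by
  obtain ⟨q, rfl⟩ : ∃ q, n = 2 + 3 * q + 2 := ⟨(n - 4) / 3, by omega⟩
  have h1 := sum_triples g m 2 q (fun r hr => h.triple (2 + 3 * r) (by omega))
  have h2 := h.left hn
  have h4 := h.right hn
  rw [sum_range_succ, sum_range_succ] at *
  simp only [Nat.add_sub_cancel, show 2 + 3 * q + 2 - 1 = 2 + 3 * q + 1 by omega] at h4 ⊢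
  simp only [range_zero, sum_empty, zero_add] at h1
  have h5 : m * (2 + 3 * q + 2 + 2) = 3 * (m * q) + 6 * m := by ring
  rw [h5]
  omega

theorem Col.bound2a (h : Col m n g t s) (hn : 2 ≤ n) (h3 : n % 3 = 2) :
    3 * g 0 + 3 * ∑ j ∈ range n, g j ≤ m * (n + 1) + 3 := by
  obtain ⟨q, rfl⟩ : ∃ q, n = 2 + 3 * q := ⟨(n - 2) / 3, by omega⟩
  have h1 := sum_triples g m 2 q (fun r hr => h.triple (2 + 3 * r) (by omega))
  have h2 := h.left hn
  simp only [sum_range_succ, range_zero, sum_empty, zero_add] at h1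
  have h5 : m * (2 + 3 * q + 1) = 3 * (m * q) + 3 * m := by ring
  rw [h5]
  omega

theorem Col.bound2b (h : Col m n g t s) (hn : 2 ≤ n) (h3 : n % 3 = 2) :
    3 * g (n - 1) + 3 * ∑ j ∈ range n, g j ≤ m * (n + 1) + 3 := by
  obtain ⟨q, rfl⟩ : ∃ q, n = 0 + 3 * q + 2 := ⟨(n - 2) / 3, by omega⟩
  have h1 := sum_triples g m 0 q (fun r hr => h.triple (0 + 3 * r) (by omega))
  have h4 := h.right hn
  rw [sum_range_succ, sum_range_succ] at *
  simp only [Nat.add_sub_cancel, show 0 + 3 * q + 2 - 1 = 0 + 3 * q + 1 by omega] at h4 ⊢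
  simp only [range_zero, sum_empty, zero_add] at *
  have h5 : m * (3 * q + 2 + 1) = 3 * (m * q) + 3 * m := by ring
  rw [h5]
  omega

/-- The bound for the number of horizontal dominoes in terms of the excess `d`. -/
theorem Col.main (h : Col m n g t s) (hn : 2 ≤ n) (d : ℤ)
    (hd : (∑ k ∈ range n, s k : ℤ) + ∑ k ∈ range n, (t k : ℤ) = ∑ k ∈ range n, (g k : ℤ) + d) :
    (n % 3 = 1 → 3 * (∑ k ∈ range n, (t k : ℤ)) ≤ (5 * n + 1) * d + 6 * n) ∧
    (n % 3 = 2 → 3 * (∑ k ∈ range n, (t k : ℤ)) ≤ (7 * n + 1) * d + 6 * n) := by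
  have h1 := h.DH (by omega)
  have h2 := h.total
  zify [show 1 ≤ n by omega] at h1 h2
  set H : ℤ := ∑ k ∈ range n, (g k : ℤ) with hH
  set T : ℤ := ∑ k ∈ range n, (t k : ℤ) with hT
  set S : ℤ := ∑ k ∈ range n, (s k : ℤ) with hS
  have h2' : 3 * H = n * m - 2 * d := by linarith
  have h1' : T ≤ ((n : ℤ) - 1) * d + n * (g 0 + g (n - 1)) - 2 * H := by
    have : S + T = H + d := hd
    nlinarith
  constructor
  · intro h3
    have h4 := h.bound1 hn h3
    zify at h4
    rw [← hH] at h4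
    have h5 : 3 * ((g 0 : ℤ) + g (n - 1)) ≤ 2 * m + 6 + 2 * d := by nlinarith
    have h6 : (n : ℤ) * (3 * ((g 0 : ℤ) + g (n - 1))) ≤ n * (2 * m + 6 + 2 * d) :=
      mul_le_mul_of_nonneg_left h5 (by positivity)
    nlinarith
  · intro h3
    have h4 := h.bound2a hn h3
    have h4' := h.bound2b hn h3
    zify at h4 h4'
    rw [← hH] at h4 h4'
    have h5 : 3 * ((g 0 : ℤ) + g (n - 1)) ≤ 2 * m + 6 + 4 * d := by nlinarith
    have h6 : (n : ℤ) * (3 * ((g 0 : ℤ) + g (n - 1))) ≤ n * (2 * m + 6 + 4 * d) :=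
      mul_le_mul_of_nonneg_left h5 (by positivity)
    nlinarith

end numeric

/-! ### From indicator functions to column data -/

theorem aux1 (m : ℕ) (b X V : ℕ → ℕ) (V0 : V 0 = 0) (Vm : V m = 0)
    (h1 : ∀ i < m, b i ≤ 1) (h : ∀ i < m, b i = 1 → 1 ≤ X i + V i + V (i + 1))
    (hb : ∀ i, i + 1 < m → b i + b (i + 1) ≤ 1) :
    ∑ i ∈ range m, b i ≤ ∑ i ∈ range m, X i + ∑ i ∈ range m, V i := by
  have e1 : ∑ i ∈ range m, b (i + 1) * V (i + 1) = ∑ i ∈ range m, b i * V i := by
    have := sum_shift (fun i => b i * V i) (by simp [V0]) m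
    simpa [Vm] using this
  have e2 : ∑ i ∈ range m, V (i + 1) = ∑ i ∈ range m, V i := by
    have := sum_shift V V0 m
    simpa [Vm] using this
  have e3 : ∑ i ∈ range m, b i ≤ ∑ i ∈ range m, (X i + b i * V i + b i * V (i + 1)) := by
    apply sum_le_sum
    intro i hi
    have hi := mem_range.1 hi
    have h2 := h1 i hi
    have h3 := h i hi
    rcases Nat.le_one_iff_eq_zero_or_eq_one.1 h2 with h4 | h4
    · rw [h4]; omega
    · rw [h4, one_mul, one_mul]; exact h3 h4
  have e4 : ∑ i ∈ range m, (b (i + 1) * V (i + 1) + b i * V (i + 1)) ≤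
      ∑ i ∈ range m, V (i + 1) := by
    apply sum_le_sum
    intro i hi
    have hi := mem_range.1 hi
    by_cases h5 : i + 1 < m
    · have h6 := hb i h5
      calc b (i + 1) * V (i + 1) + b i * V (i + 1) = (b i + b (i + 1)) * V (i + 1) := by ring
        _ ≤ 1 * V (i + 1) := Nat.mul_le_mul_right _ h6
        _ = V (i + 1) := one_mul _
    · have : i + 1 = m := by omega
      rw [this, Vm]; simp
  rw [sum_add_distrib, sum_add_distrib] at e3
  rw [sum_add_distrib] at e4
  omega

theorem aux2 (m : ℕ) (b Y V : ℕ → ℕ) (V0 : V 0 = 0) (Vm : V m = 0)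
    (h1 : ∀ i < m, b i ≤ 1) (h : ∀ i, i + 1 < m → b i = 1 → 1 ≤ Y (i + 1) + V (i + 2)) :
    ∑ i ∈ range m, b i ≤ ∑ i ∈ range m, V i + ∑ i ∈ range m, Y i + 1 := by
  rcases m with _ | m
  · simp
  have e2 : ∑ i ∈ range (m + 1), V (i + 1) = ∑ i ∈ range (m + 1), V i := by
    have := sum_shift V V0 (m + 1)
    simpa [Vm] using this
  have e3 : ∑ i ∈ range m, b i ≤ ∑ i ∈ range m, (Y (i + 1) + V (i + 1 + 1)) := by
    apply sum_le_sum
    intro i hi
    have hi := mem_range.1 hi
    have h2 := h1 i (by omega)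
    have h3 : b i = 1 → 1 ≤ Y (i + 1) + V (i + 1 + 1) := h i (by omega)
    omega
  have h4 := h1 m (by omega)
  rw [sum_add_distrib] at e3
  rw [sum_range_succ' (fun i => V (i + 1))] at e2
  rw [sum_range_succ b, sum_range_succ' Y]
  omega

structure Sys (m n : ℕ) (a A V : ℕ → ℕ → ℕ) : Prop where
  A0 : ∀ i, A i 0 = 0
  An : ∀ i, A i n = 0
  V0 : ∀ j, V 0 j = 0
  Vm : ∀ j, V m j = 0
  cell : ∀ i < m, ∀ j < n, a i j + A i j + A i (j + 1) + V i j + V (i + 1) j = 1
  isoH : ∀ i < m, ∀ j, j + 1 < n → a i j + a i (j + 1) ≤ 1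
  isoV : ∀ i, i + 1 < m → ∀ j < n, a i j + a (i + 1) j ≤ 1

theorem Sys.swap {m n : ℕ} {a A V : ℕ → ℕ → ℕ} (S : Sys m n a A V) :
    Sys n m (fun i j => a j i) (fun i j => V j i) (fun i j => A j i) where
  A0 := S.V0
  An := S.Vm
  V0 := S.A0
  Vm := S.An
  cell := fun i hi j hj => by
    have := S.cell j hj i hi
    show a j i + V j i + V (j + 1) i + A j i + A j (i + 1) = 1
    omega
  isoH := fun i hi j hj => S.isoV j hj i hi
  isoV := fun i hi j hj => S.isoH j hj i hi

theorem Sys.col {m n : ℕ} {a A V : ℕ → ℕ → ℕ} (S : Sys m n a A V) (hn : 2 ≤ n) :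
    Col m n (fun j => ∑ i ∈ range m, a i j) (fun j => ∑ i ∈ range m, A i j)
      (fun j => ∑ i ∈ range m, V i j) where
  t0 := sum_eq_zero (fun i _ => S.A0 i)
  tn := sum_eq_zero (fun i _ => S.An i)
  cell := fun j hj => by
    have h1 : ∑ i ∈ range m, (a i j + A i j + A i (j + 1) + V i j + V (i + 1) j) =
        ∑ i ∈ range m, 1 := sum_congr rfl (fun i hi => S.cell i (mem_range.1 hi) j hj)
    rw [sum_add_distrib, sum_add_distrib, sum_add_distrib, sum_add_distrib,
      sum_shift (fun i => V i j) (S.V0 j), S.Vm, sum_const, card_range, smul_eq_mul, mul_one]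
      at h1
    show ∑ i ∈ range m, a i j + ∑ i ∈ range m, A i j + ∑ i ∈ range m, A i (j + 1) +
      2 * ∑ i ∈ range m, V i j = m
    omega
  L := fun j hj => by
    have h1 := aux1 m (fun i => a i j) (fun i => A i (j + 2)) (fun i => V i (j + 1))
      (S.V0 _) (S.Vm _) (fun i hi => by have := S.cell i hi j (by omega); show a i j ≤ 1; omega)
      (fun i hi hb => by
        have h1 : a i j + A i j + A i (j + 1) + V i j + V (i + 1) j = 1 :=
          S.cell i hi j (by omega)
        have h2 : a i (j + 1) + A i (j + 1) + A i (j + 2) + V i (j + 1) + V (i + 1) (j + 1) = 1 :=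
          S.cell i hi (j + 1) (by omega)
        have h3 := S.isoH i hi j hj
        have hb : a i j = 1 := hb
        show 1 ≤ A i (j + 2) + V i (j + 1) + V (i + 1) (j + 1)
        omega)
      (fun i hi => S.isoV i hi j (by omega))
    show ∑ i ∈ range m, a i j ≤ ∑ i ∈ range m, V i (j + 1) + ∑ i ∈ range m, A i (j + 2)
    omega
  R := fun j hj => by
    have h1 := aux1 m (fun i => a i (j + 1)) (fun i => A i j) (fun i => V i j)
      (S.V0 _) (S.Vm _)
      (fun i hi => by have := S.cell i hi (j + 1) (by omega); show a i (j + 1) ≤ 1; omega)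
      (fun i hi hb => by
        have h1 : a i j + A i j + A i (j + 1) + V i j + V (i + 1) j = 1 :=
          S.cell i hi j (by omega)
        have h2 : a i (j + 1) + A i (j + 1) + A i (j + 2) + V i (j + 1) + V (i + 1) (j + 1) = 1 :=
          S.cell i hi (j + 1) (by omega)
        have h3 := S.isoH i hi j hj
        have hb : a i (j + 1) = 1 := hb
        show 1 ≤ A i j + V i j + V (i + 1) j
        omega)
      (fun i hi => S.isoV i hi (j + 1) (by omega))
    show ∑ i ∈ range m, a i (j + 1) ≤ ∑ i ∈ range m, V i j + ∑ i ∈ range m, A i j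
    omega
  first := by
    exact aux2 m (fun i => a i 0) (fun i => A i 1) (fun i => V i 0)
      (S.V0 _) (S.Vm _)
      (fun i hi => by have := S.cell i hi 0 (by omega); show a i 0 ≤ 1; omega)
      (fun i hi hb => by
        have h1 : a i 0 + A i 0 + A i 1 + V i 0 + V (i + 1) 0 = 1 :=
          S.cell i (by omega) 0 (by omega)
        have h2 : a (i + 1) 0 + A (i + 1) 0 + A (i + 1) 1 + V (i + 1) 0 + V (i + 2) 0 = 1 :=
          S.cell (i + 1) hi 0 (by omega)
        have h3 := S.isoV i hi 0 (by omega)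
        have h4 := S.A0 (i + 1)
        have hb : a i 0 = 1 := hb
        show 1 ≤ A (i + 1) 1 + V (i + 2) 0
        omega)
  last := by
    obtain ⟨n, rfl⟩ : ∃ n', n = n' + 1 := ⟨n - 1, by omega⟩
    exact aux2 m (fun i => a i n) (fun i => A i n) (fun i => V i n)
      (S.V0 _) (S.Vm _)
      (fun i hi => by have := S.cell i hi n (by omega); show a i n ≤ 1; omega)
      (fun i hi hb => by
        have h1 : a i n + A i n + A i (n + 1) + V i n + V (i + 1) n = 1 :=
          S.cell i (by omega) n (by omega)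
        have h2 : a (i + 1) n + A (i + 1) n + A (i + 1) (n + 1) + V (i + 1) n +
          V (i + 2) n = 1 := S.cell (i + 1) hi n (by omega)
        have h3 := S.isoV i hi n (by omega)
        have h4 := S.An (i + 1)
        have hb : a i n = 1 := hb
        show 1 ≤ A (i + 1) n + V (i + 2) n
        omega)

/-- The main inequality for indicator functions. -/
theorem Sys.main {m n : ℕ} {a A V : ℕ → ℕ → ℕ} (S : Sys m n a A V) (hm : 2 ≤ m) (hn : 2 ≤ n)
    (h3m : ¬ 3 ∣ m) (h3n : ¬ 3 ∣ n) :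
    ∃ d : ℤ, 0 ≤ d ∧ (m * n : ℤ) = 3 * ∑ i ∈ range m, ∑ j ∈ range n, (a i j : ℤ) + 2 * d ∧
      (m * n : ℤ) ≤ (7 * (m + n) + 1) * d + 6 * (m + n) := by
  have C1 := S.col hn
  have C2 := S.swap.col hm
  set H : ℤ := ∑ i ∈ range m, ∑ j ∈ range n, (a i j : ℤ) with hH
  set X : ℤ := ∑ i ∈ range m, ∑ j ∈ range n, (A i j : ℤ) with hX
  set Y : ℤ := ∑ i ∈ range m, ∑ j ∈ range n, (V i j : ℤ) with hY
  have tot := C2.total
  zify at tot
  rw [← hH, ← hX, ← hY] at tot
  have M1 := C1.main hn (X + Y - H) (by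
    push_cast
    rw [sum_comm (s := range n) (t := range m) (f := fun j i => (V i j : ℤ)),
      sum_comm (s := range n) (t := range m) (f := fun j i => (A i j : ℤ)),
      sum_comm (s := range n) (t := range m) (f := fun j i => (a i j : ℤ)),
      ← hH, ← hX, ← hY]
    ring)
  have M2 := C2.main hm (X + Y - H) (by
    push_cast
    rw [← hH, ← hX, ← hY]
    ring)
  push_cast at M1 M2
  rw [sum_comm (s := range n) (t := range m) (f := fun j i => (A i j : ℤ)), ← hX] at M1
  rw [← hY] at M2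
  set d : ℤ := X + Y - H with hd
  have hm' : (2 : ℤ) ≤ m := by exact_mod_cast hm
  have hn' : (2 : ℤ) ≤ n := by exact_mod_cast hn
  have key : 3 * (X + Y) = m * n + d := by rw [hd]; linarith
  have hX' : 3 * X ≤ (5 * n + 1) * d + 6 * n ∨ 3 * X ≤ (7 * n + 1) * d + 6 * n := by
    have : n % 3 = 1 ∨ n % 3 = 2 := by omega
    rcases this with h | h
    · exact Or.inl (M1.1 h)
    · exact Or.inr (M1.2 h)
  have hY' : 3 * Y ≤ (5 * m + 1) * d + 6 * m ∨ 3 * Y ≤ (7 * m + 1) * d + 6 * m := by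
    have : m % 3 = 1 ∨ m % 3 = 2 := by omega
    rcases this with h | h
    · exact Or.inl (M2.1 h)
    · exact Or.inr (M2.2 h)
  have hpos : 0 ≤ d := by
    by_contra hneg
    have hneg : d ≤ -1 := by omega
    have a1 : 3 * X ≤ 5 * n * d + d + 6 * n := by
      rcases hX' with h | h <;> nlinarith
    have a2 : 3 * Y ≤ 5 * m * d + d + 6 * m := by
      rcases hY' with h | h <;> nlinarith
    have a3 : (m : ℤ) * n ≤ (5 * n + 5 * m + 1) * d + 6 * (m + n) := by nlinarith
    nlinarith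
  refine ⟨d, hpos, by rw [hd]; linarith, ?_⟩
  have a1 : 3 * X ≤ 7 * n * d + d + 6 * n := by
    rcases hX' with h | h <;> nlinarith
  have a2 : 3 * Y ≤ 7 * m * d + d + 6 * m := by
    rcases hY' with h | h <;> nlinarith
  nlinarith

/-! ### From configurations to indicator functions -/

section config

variable {m n : ℕ} {D : Finset (Finset (ℕ × ℕ))}

def ia (m n : ℕ) (D : Finset (Finset (ℕ × ℕ))) (i j : ℕ) : ℕ :=
  if (i, j) ∈ holes m n D then 1 else 0

def iA (D : Finset (Finset (ℕ × ℕ))) (i : ℕ) : ℕ → ℕ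
  | 0 => 0
  | j + 1 => if ({(i, j), (i, j + 1)} : Finset (ℕ × ℕ)) ∈ D then 1 else 0

def iV (D : Finset (Finset (ℕ × ℕ))) : ℕ → ℕ → ℕ
  | 0, _ => 0
  | i + 1, j => if ({(i, j), (i + 1, j)} : Finset (ℕ × ℕ)) ∈ D then 1 else 0

theorem IsGunport.uniq (h : IsGunport m n D) {x y z : ℕ × ℕ}
    (hy : ({x, y} : Finset (ℕ × ℕ)) ∈ D) (hz : ({x, z} : Finset (ℕ × ℕ)) ∈ D) (hxy : y ≠ x) :
    y = z := by
  by_contra hne
  have hn : ({x, y} : Finset (ℕ × ℕ)) ≠ {x, z} := by
    intro he
    have h1 : y ∈ ({x, z} : Finset (ℕ × ℕ)) := by rw [← he]; simp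
    rcases mem_insert.1 h1 with h2 | h2
    · exact hxy h2
    · exact hne (mem_singleton.1 h2)
  exact Finset.disjoint_left.1 (h.disj _ hy _ hz hn) (mem_insert_self x _) (mem_insert_self x _)

theorem IsGunport.exists_dom (h : IsGunport m n D) {x : ℕ × ℕ} (hx : x ∈ board m n)
    (hh : x ∉ holes m n D) : ∃ y, Adj x y ∧ ({x, y} : Finset (ℕ × ℕ)) ∈ D := by
  have h1 : x ∈ D.biUnion id := by
    by_contra h2
    exact hh (mem_sdiff.2 ⟨hx, h2⟩)
  obtain ⟨d, hd, hxd⟩ := mem_biUnion.1 h1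
  obtain ⟨-, a, b, hab, rfl⟩ := h.domino d hd
  rcases mem_insert.1 hxd with h3 | h3
  · subst h3; exact ⟨b, hab, hd⟩
  · have h3 := mem_singleton.1 h3
    subst h3
    refine ⟨a, ?_, by rw [pair_comm]; exact hd⟩
    unfold Adj at *
    omega

theorem IsGunport.A_zero (h : IsGunport m n D) {i j : ℕ} {y : ℕ × ℕ}
    (hy : ({(i, j), y} : Finset (ℕ × ℕ)) ∈ D) (hne : y ≠ (i, j)) (h1 : y.1 ≠ i ∨ y.2 + 1 ≠ j) :
    iA D i j = 0 := by
  cases j with
  | zero => rfl
  | succ j =>
    apply if_neg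
    intro hz
    rw [pair_comm] at hz
    have := h.uniq hy hz hne
    subst this
    simp at h1

theorem IsGunport.A1_zero (h : IsGunport m n D) {i j : ℕ} {y : ℕ × ℕ}
    (hy : ({(i, j), y} : Finset (ℕ × ℕ)) ∈ D) (hne : y ≠ (i, j)) (h1 : y.1 ≠ i ∨ y.2 ≠ j + 1) :
    iA D i (j + 1) = 0 := by
  apply if_neg
  intro hz
  have := h.uniq hy hz hne
  subst this
  simp at h1

theorem IsGunport.V_zero (h : IsGunport m n D) {i j : ℕ} {y : ℕ × ℕ}
    (hy : ({(i, j), y} : Finset (ℕ × ℕ)) ∈ D) (hne : y ≠ (i, j)) (h1 : y.1 + 1 ≠ i ∨ y.2 ≠ j) :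
    iV D i j = 0 := by
  cases i with
  | zero => rfl
  | succ i =>
    apply if_neg
    intro hz
    rw [pair_comm] at hz
    have := h.uniq hy hz hne
    subst this
    simp at h1

theorem IsGunport.V1_zero (h : IsGunport m n D) {i j : ℕ} {y : ℕ × ℕ}
    (hy : ({(i, j), y} : Finset (ℕ × ℕ)) ∈ D) (hne : y ≠ (i, j)) (h1 : y.1 ≠ i + 1 ∨ y.2 ≠ j) :
    iV D (i + 1) j = 0 := by
  apply if_neg
  intro hz
  have := h.uniq hy hz hne
  subst this
  simp at h1

theorem IsGunport.cell (h : IsGunport m n D) (i : ℕ) (hi : i < m) (j : ℕ) (hj : j < n) :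
    ia m n D i j + iA D i j + iA D i (j + 1) + iV D i j + iV D (i + 1) j = 1 := by
  have hx : (i, j) ∈ board m n := by simp [board, hi, hj]
  by_cases hh : (i, j) ∈ holes m n D
  · have hz : ∀ d ∈ D, (i, j) ∉ d := fun d hd hxd =>
      (mem_sdiff.1 hh).2 (mem_biUnion.2 ⟨d, hd, hxd⟩)
    have e1 : iA D i j = 0 := by
      cases j with
      | zero => rfl
      | succ j => exact if_neg (fun h => hz _ h (by simp))
    have e2 : iA D i (j + 1) = 0 := if_neg (fun h => hz _ h (by simp))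
    have e3 : iV D i j = 0 := by
      cases i with
      | zero => rfl
      | succ i => exact if_neg (fun h => hz _ h (by simp))
    have e4 : iV D (i + 1) j = 0 := if_neg (fun h => hz _ h (by simp))
    rw [e1, e2, e3, e4]
    simp [ia, hh]
  · obtain ⟨⟨y1, y2⟩, hadj, hy⟩ := h.exists_dom hx hh
    have hne : ((y1, y2) : ℕ × ℕ) ≠ (i, j) := by
      intro he
      rw [Prod.mk.injEq] at he
      unfold Adj at hadj
      simp only at hadj
      omega
    have e0 : ia m n D i j = 0 := if_neg hh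
    unfold Adj at hadj
    simp only at hadj
    rcases hadj with ⟨h1, h2 | h2⟩ | ⟨h1, h2 | h2⟩
    · have e1 := h.A_zero hy hne (by right; simp only; omega)
      have e3 := h.V_zero hy hne (by left; simp only; omega)
      have e4 := h.V1_zero hy hne (by left; simp only; omega)
      have e2 : iA D i (j + 1) = 1 := by
        subst h1 h2
        exact if_pos hy
      omega
    · have e2 := h.A1_zero hy hne (by right; simp only; omega)
      have e3 := h.V_zero hy hne (by left; simp only; omega)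
      have e4 := h.V1_zero hy hne (by left; simp only; omega)
      have e1 : iA D i j = 1 := by
        subst h1 h2
        rw [pair_comm] at hy
        exact if_pos hy
      omega
    · have e1 := h.A_zero hy hne (by left; simp only; omega)
      have e2 := h.A1_zero hy hne (by left; simp only; omega)
      have e3 := h.V_zero hy hne (by left; simp only; omega)
      have e4 : iV D (i + 1) j = 1 := by
        subst h1 h2
        exact if_pos hy
      omega
    · have e1 := h.A_zero hy hne (by left; simp only; omega)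
      have e2 := h.A1_zero hy hne (by left; simp only; omega)
      have e4 := h.V1_zero hy hne (by left; simp only; omega)
      have e3 : iV D i j = 1 := by
        subst h1 h2
        rw [pair_comm] at hy
        exact if_pos hy
      omega

theorem IsGunport.sys (h : IsGunport m n D) : Sys m n (ia m n D) (iA D) (iV D) where
  A0 := fun i => rfl
  An := fun i => by
    cases n with
    | zero => rfl
    | succ n =>
      apply if_neg
      intro hz
      have := (h.domino _ hz).1 (show (i, n + 1) ∈ _ by simp)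
      simp [board] at this
  V0 := fun j => rfl
  Vm := fun j => by
    cases m with
    | zero => rfl
    | succ m =>
      apply if_neg
      intro hz
      have := (h.domino _ hz).1 (show (m + 1, j) ∈ _ by simp)
      simp [board] at this
  cell := h.cell
  isoH := fun i hi j hj => by
    unfold ia
    split_ifs with h1 h2
    · exact absurd (Or.inl ⟨rfl, Or.inl rfl⟩) (h.isolated _ h1 _ h2)
    all_goals omega
  isoV := fun i hi j hj => by
    unfold ia
    split_ifs with h1 h2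
    · exact absurd (Or.inr ⟨rfl, Or.inl rfl⟩) (h.isolated _ h1 _ h2)
    all_goals omega

theorem card_holes (m n : ℕ) (D : Finset (Finset (ℕ × ℕ))) :
    (holes m n D).card = ∑ i ∈ range m, ∑ j ∈ range n, ia m n D i j := by
  have h1 : holes m n D = (board m n).filter (fun x => x ∈ holes m n D) := by
    ext x
    simp only [mem_filter]
    constructor
    · intro hx; exact ⟨(mem_sdiff.1 hx).1, hx⟩
    · intro hx; exact hx.2
  rw [h1, card_filter, board, sum_product]
  rfl

theorem IsGunport.main (h : IsGunport m n D) (hm : 2 ≤ m) (hn : 2 ≤ n) (h3m : ¬ 3 ∣ m)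
    (h3n : ¬ 3 ∣ n) : ∃ d : ℕ, m * n = 3 * (holes m n D).card + 2 * d ∧
      m * n ≤ (7 * (m + n) + 1) * d + 6 * (m + n) := by
  obtain ⟨d, hd, h1, h2⟩ := h.sys.main hm hn h3m h3n
  obtain ⟨d, rfl⟩ := Int.eq_ofNat_of_zero_le hd
  rw [card_holes]
  refine ⟨d, by exact_mod_cast h1, by exact_mod_cast h2⟩

end config

/-! ### The maximum exists -/

def Valid (m n : ℕ) (D : Finset (Finset (ℕ × ℕ))) : Prop :=
  (∀ d ∈ D, d ⊆ board m n ∧ ∃ a b, Adj a b ∧ d = {a, b}) ∧
  (∀ d ∈ D, ∀ e ∈ D, d ≠ e → Disjoint d e)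

theorem exists_gunport (m n : ℕ) : ∃ D, IsGunport m n D := by
  classical
  let P := ((board m n).powerset.powerset).filter (Valid m n)
  have hne : P.Nonempty := ⟨∅, by simp [P, Valid]⟩
  obtain ⟨D, hD, hmax⟩ := exists_max_image P card hne
  have hD' := mem_filter.1 hD
  refine ⟨D, hD'.2.1, hD'.2.2, ?_⟩
  intro a ha b hb hab
  have ha' := mem_sdiff.1 ha
  have hb' := mem_sdiff.1 hb
  have hdis : ∀ d ∈ D, Disjoint ({a, b} : Finset (ℕ × ℕ)) d := by
    intro d hd
    rw [Finset.disjoint_left]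
    intro x hx hxd
    rcases mem_insert.1 hx with h | h
    · subst h; exact ha'.2 (mem_biUnion.2 ⟨d, hd, hxd⟩)
    · have h := mem_singleton.1 h
      subst h; exact hb'.2 (mem_biUnion.2 ⟨d, hd, hxd⟩)
  have hnot : ({a, b} : Finset (ℕ × ℕ)) ∉ D := by
    intro h
    exact Finset.disjoint_left.1 (hdis _ h) (mem_insert_self a _) (mem_insert_self a _)
  have hsub : ({a, b} : Finset (ℕ × ℕ)) ⊆ board m n := by
    intro x hx
    rcases mem_insert.1 hx with h | h
    · subst h; exact ha'.1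
    · have h := mem_singleton.1 h
      subst h; exact hb'.1
  have hins : insert {a, b} D ∈ P := by
    refine mem_filter.2 ⟨?_, ?_, ?_⟩
    · rw [mem_powerset]
      intro d hd
      rcases mem_insert.1 hd with h | h
      · subst h; exact mem_powerset.2 hsub
      · exact mem_powerset.2 (hD'.2.1 d h).1
    · intro d hd
      rcases mem_insert.1 hd with h | h
      · subst h; exact ⟨hsub, a, b, hab, rfl⟩
      · exact hD'.2.1 d h
    · intro d hd e he hde
      rcases mem_insert.1 hd with h | h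
      · rcases mem_insert.1 he with h' | h'
        · exact absurd (h.trans h'.symm) hde
        · subst h; exact hdis e h'
      · rcases mem_insert.1 he with h' | h'
        · subst h'; exact (hdis d h).symm
        · exact hD'.2.2 d h e h' hde
  have := hmax _ hins
  rw [card_insert_of_notMem hnot] at this
  omega

theorem isGreatest_G (m n : ℕ) :
    IsGreatest {k | ∃ D, IsGunport m n D ∧ (holes m n D).card = k} (G m n) := by
  obtain ⟨D0, hD0⟩ := exists_gunport m n
  have hne : {k | ∃ D, IsGunport m n D ∧ (holes m n D).card = k}.Nonempty := ⟨_, D0, hD0, rfl⟩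
  have hbdd : BddAbove {k | ∃ D, IsGunport m n D ∧ (holes m n D).card = k} := by
    refine ⟨(board m n).card, ?_⟩
    rintro k ⟨D, -, rfl⟩
    exact card_le_card sdiff_subset
  exact ⟨Nat.sSup_mem hne hbdd, fun k hk => le_csSup hbdd hk⟩

/-! ### A configuration with many holes -/

def T (q m : ℕ) (x : ℕ × ℕ) : Prop :=
  x.1 < m ∧ ((x.1 < 3 * q ∧ ((x.2 % 2 = 0 ∧ x.1 % 3 = 1) ∨ (x.2 % 2 = 1 ∧ x.1 % 3 = 0))) ∨
    (3 * q ≤ x.1 ∧ (x.1 - 3 * q) % 2 = 0))

instance (q m : ℕ) : DecidablePred (T q m) := fun x => by unfold T; infer_instance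

def pat (q m n : ℕ) : Finset (Finset (ℕ × ℕ)) :=
  ((board m n).filter (T q m)).image (fun x => {x, (x.1 + 1, x.2)})

theorem mem_pat {q m n : ℕ} {d : Finset (ℕ × ℕ)} :
    d ∈ pat q m n ↔ ∃ i j, i < m ∧ j < n ∧ T q m (i, j) ∧ d = {(i, j), (i + 1, j)} := by
  unfold pat
  simp only [mem_image, mem_filter, board, mem_product, mem_range, Prod.exists]
  constructor
  · rintro ⟨i, j, ⟨⟨h1, h2⟩, h3⟩, rfl⟩
    exact ⟨i, j, h1, h2, h3, rfl⟩
  · rintro ⟨i, j, h1, h2, h3, rfl⟩
    exact ⟨i, j, ⟨⟨h1, h2⟩, h3⟩, rfl⟩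

theorem mem_holes_pat {q r n : ℕ} (i j : ℕ) :
    (i, j) ∈ holes (3 * q + 2 * r) n (pat q (3 * q + 2 * r) n) ↔
      i < 3 * q ∧ j < n ∧ ((j % 2 = 0 ∧ i % 3 = 0) ∨ (j % 2 = 1 ∧ i % 3 = 2)) := by
  constructor
  · intro h
    have h1 := mem_sdiff.1 h
    have h2 := h1.1
    simp only [board, mem_product, mem_range] at h2
    by_contra h3
    apply h1.2
    rw [mem_biUnion]
    by_cases h4 : T q (3 * q + 2 * r) (i, j)
    · exact ⟨{(i, j), (i + 1, j)}, mem_pat.2 ⟨i, j, h2.1, h2.2, h4, rfl⟩, by simp⟩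
    · obtain ⟨i, rfl⟩ : ∃ i', i = i' + 1 := by
        refine ⟨i - 1, ?_⟩
        unfold T at h4
        simp only at h4
        omega
      refine ⟨{(i, j), (i + 1, j)}, mem_pat.2 ⟨i, j, by omega, h2.2, ?_, rfl⟩, by simp⟩
      unfold T at h4 ⊢
      simp only at h4 ⊢
      omega
  · rintro ⟨h1, h2, h3⟩
    refine mem_sdiff.2 ⟨by simp only [board, mem_product, mem_range]; omega, ?_⟩
    rw [mem_biUnion]
    rintro ⟨d, hd, hx⟩
    obtain ⟨i', j', h4, h5, h6, rfl⟩ := mem_pat.1 hd
    unfold T at h6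
    simp only at h6
    simp only [id, mem_insert, mem_singleton, Prod.mk.injEq] at hx
    omega

theorem pat_gunport (q r n : ℕ) :
    IsGunport (3 * q + 2 * r) n (pat q (3 * q + 2 * r) n) where
  domino := by
    intro d hd
    obtain ⟨i, j, h1, h2, h3, rfl⟩ := mem_pat.1 hd
    unfold T at h3
    simp only at h3
    refine ⟨?_, (i, j), (i + 1, j), Or.inr ⟨rfl, Or.inl rfl⟩, rfl⟩
    intro x hx
    rcases mem_insert.1 hx with h | h
    · subst h; simp only [board, mem_product, mem_range]; omega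
    · have h := mem_singleton.1 h
      subst h; simp only [board, mem_product, mem_range]; omega
  disj := by
    intro d hd e he hde
    obtain ⟨i, j, h1, h2, h3, rfl⟩ := mem_pat.1 hd
    obtain ⟨i', j', h1', h2', h3', rfl⟩ := mem_pat.1 he
    rw [Finset.disjoint_left]
    rintro ⟨x, y⟩ hx hy
    simp only [mem_insert, mem_singleton, Prod.mk.injEq] at hx hy
    unfold T at h3 h3'
    simp only at h3 h3'
    have : i = i' ∧ j = j' := by omega
    apply hde
    rw [this.1, this.2]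
  isolated := by
    rintro ⟨i, j⟩ ha ⟨i', j'⟩ hb hab
    rw [mem_holes_pat] at ha hb
    unfold Adj at hab
    simp only at hab
    omega

theorem card_holes_pat (q r n : ℕ) :
    q * n ≤ (holes (3 * q + 2 * r) n (pat q (3 * q + 2 * r) n)).card := by
  have h1 : (range q ×ˢ range n).card = q * n := by simp
  rw [← h1]
  apply card_le_card_of_injOn (fun x => (3 * x.1 + 2 * (x.2 % 2), x.2))
  · rintro ⟨a, b⟩ hx
    simp only [coe_product, coe_range, Set.mem_prod, Set.mem_Iio] at hx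
    show (3 * a + 2 * (b % 2), b) ∈ holes (3 * q + 2 * r) n (pat q (3 * q + 2 * r) n)
    rw [mem_holes_pat]
    omega
  · rintro ⟨a, b⟩ hx ⟨a', b'⟩ hx' he
    simp only [Prod.mk.injEq] at he ⊢
    omega

/-- **Main result.** Pearce's formula for the gunport problem is false: it fails for all
`m, n ≥ 41` not divisible by `3`, and for `n ≤ m` the deficiency `m n - 3 G(m,n)` lies between
`(n - 12) / 8` and `4 n`, whereas the formula makes it at most `4`. -/
theorem result :
    (∀ m n, IsGreatest {k | ∃ D, IsGunport m n D ∧ (holes m n D).card = k} (G m n)) ∧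
    (¬ ∀ m n, 2 ≤ m → 2 ≤ n → ¬ 3 ∣ m → ¬ 3 ∣ n → G m n = pearce m n) ∧
    (∀ m n, 41 ≤ m → 41 ≤ n → ¬ 3 ∣ m → ¬ 3 ∣ n → G m n < pearce m n) ∧
    (∀ m n, 2 ≤ n → n ≤ m → ¬ 3 ∣ m → ¬ 3 ∣ n →
      n + 24 * G m n ≤ 8 * (m * n) + 12 ∧ m * n ≤ 3 * G m n + 4 * n) := by
  have key : ∀ m n, 2 ≤ m → 2 ≤ n → ¬ 3 ∣ m → ¬ 3 ∣ n → ∃ d : ℕ,
      m * n = 3 * G m n + 2 * d ∧ m * n ≤ (7 * (m + n) + 1) * d + 6 * (m + n) := by
    intro m n hm hn h3m h3n
    obtain ⟨D, hD, hk⟩ := (isGreatest_G m n).1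
    rw [← hk]
    exact hD.main hm hn h3m h3n
  have big : ∀ m n, 41 ≤ m → 41 ≤ n → ¬ 3 ∣ m → ¬ 3 ∣ n → G m n < pearce m n := by
    intro m n hm hn h3m h3n
    obtain ⟨d, h1, h2⟩ := key m n (by omega) (by omega) h3m h3n
    have h3 : 3 ≤ d := by
      by_contra h4
      have h5 : d ≤ 2 := by omega
      have h6 : (7 * (m + n) + 1) * d ≤ (7 * (m + n) + 1) * 2 := Nat.mul_le_mul_left _ h5
      obtain ⟨a, rfl⟩ := Nat.exists_eq_add_of_le hm
      obtain ⟨b, rfl⟩ := Nat.exists_eq_add_of_le hn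
      nlinarith [Nat.zero_le (a * b)]
    unfold pearce
    split_ifs with h4
    · have h5 : m * n % 3 = 1 := by
        have h6 : m % 3 = 1 ∨ m % 3 = 2 := by omega
        rcases h6 with h6 | h6 <;> rw [Nat.mul_mod, ← h4, h6]
      omega
    · omega
  refine ⟨isGreatest_G, ?_, big, ?_⟩
  · intro h
    have h1 := h 41 41 (by norm_num) (by norm_num) (by norm_num) (by norm_num)
    have h2 := big 41 41 (by norm_num) (by norm_num) (by norm_num) (by norm_num)
    omega
  · intro m n hn hmn h3m h3n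
    obtain ⟨d, h1, h2⟩ := key m n (by omega) hn h3m h3n
    constructor
    · have h3 : n ≤ 16 * d + 12 := by
        by_contra h4
        have h4 : 16 * d + 13 ≤ n := by omega
        have h5 : (16 * d + 13) * m ≤ n * m := Nat.mul_le_mul_right _ h4
        have h6 : (16 * d + 13) * n ≤ m * n := Nat.mul_le_mul (by omega) le_rfl
        have h7 : d * (m + n) ≥ d * 1 := Nat.mul_le_mul_left _ (by omega)
        nlinarith
      omega
    · have h4 : m % 3 = 1 ∨ m % 3 = 2 := by omega
      rcases h4 with h4 | h4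
      · obtain ⟨q, rfl⟩ : ∃ q, m = 3 * q + 2 * 2 := ⟨(m - 4) / 3, by omega⟩
        have h5 := (isGreatest_G (3 * q + 2 * 2) n).2 ⟨_, pat_gunport q 2 n, rfl⟩
        have h6 := card_holes_pat q 2 n
        have h7 : (3 * q + 2 * 2) * n = 3 * (q * n) + 4 * n := by ring
        omega
      · obtain ⟨q, rfl⟩ : ∃ q, m = 3 * q + 2 * 1 := ⟨(m - 2) / 3, by omega⟩
        have h5 := (isGreatest_G (3 * q + 2 * 1) n).2 ⟨_, pat_gunport q 1 n, rfl⟩
        have h6 := card_holes_pat q 1 n
        have h7 : (3 * q + 2 * 1) * n = 3 * (q * n) + 2 * n := by ring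
        omega

end Pool.Agent.Results.MP_290120_co.LinearDeficiency
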